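import Pool.Agent.Helper65.HF.StA
import Pool.Agent.Helper45.ShPts
import Pool.Agent.Helper45.FatHilb

/-! Project HF, module CPT: leading exponents do not depend on the number of variables. -/

namespace Pool.Agent.Helper21.HF

open MvPolynomial Pool.Agent.Helper45 Pool.Agent.Helper65.HF

theorem cpt_mon_val (N : ℕ) (l : List ℕ) (u : Fin N) : mon N l u = l.count (u : ℕ) := rfl

theorem cpt_mon {N N' : ℕ} (h : N ≤ N') (l : List ℕ) (hl : ∀ x ∈ l, x < N) :
    (mon N l).mapDomain (Fin.castLE h) = mon N' l := by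
  ext u
  by_cases hu : (u : ℕ) < N
  · have e : u = Fin.castLE h ⟨u, hu⟩ := by ext; rfl
    rw [e, Finsupp.mapDomain_apply (Fin.castLE_injective h), cpt_mon_val, cpt_mon_val]
    rfl
  · rw [Finsupp.mapDomain_notin_range, cpt_mon_val]
    · symm
      rw [List.count_eq_zero]
      intro hm
      exact hu (hl _ hm)
    · rintro ⟨v, rfl⟩
      exact hu v.2

theorem cpt_RL {N N' : ℕ} (h : N ≤ N') (m b : Fin N →₀ ℕ) (hmb : RL m b) :
    RL (m.mapDomain (Fin.castLE h)) (b.mapDomain (Fin.castLE h)) := by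
  obtain ⟨u, h1, h2⟩ := hmb
  refine ⟨Fin.castLE h u, ?_, ?_⟩
  · rw [Finsupp.mapDomain_apply (Fin.castLE_injective h),
      Finsupp.mapDomain_apply (Fin.castLE_injective h)]
    exact h1
  · intro u' hu'
    by_cases hN : (u' : ℕ) < N
    · have e : u' = Fin.castLE h ⟨u', hN⟩ := by ext; rfl
      rw [e, Finsupp.mapDomain_apply (Fin.castLE_injective h),
        Finsupp.mapDomain_apply (Fin.castLE_injective h)]
      apply h2
      exact hu'
    · rw [Finsupp.mapDomain_notin_range, Finsupp.mapDomain_notin_range]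
      · rintro ⟨v, rfl⟩
        exact hN v.2
      · rintro ⟨v, rfl⟩
        exact hN v.2

theorem cpt_RL' {N N' : ℕ} (h : N ≤ N') (m : Fin N →₀ ℕ) (b : Fin N' →₀ ℕ)
    (hmb : RL (m.mapDomain (Fin.castLE h)) b) :
    ∃ b' : Fin N →₀ ℕ, b = b'.mapDomain (Fin.castLE h) ∧ RL m b' := by
  classical
  obtain ⟨u, h1, h2⟩ := hmb
  have hzero : ∀ v : Fin N', ¬ (v : ℕ) < N → m.mapDomain (Fin.castLE h) v = 0 := by
    intro v hv
    apply Finsupp.mapDomain_notin_range
    rintro ⟨w, rfl⟩
    exact hv w.2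
  have hu : (u : ℕ) < N := by
    by_contra hcon
    rw [hzero u hcon] at h1
    omega
  have hbz : ∀ v : Fin N', ¬ (v : ℕ) < N → b v = 0 := by
    intro v hv
    rw [h2 v (by rw [Fin.lt_def]; omega), hzero v hv]
  have hsub : (b.support : Set (Fin N')) ⊆ Set.range (Fin.castLE h) := by
    intro v hv
    have hv' : b v ≠ 0 := by simpa using hv
    have : (v : ℕ) < N := by
      by_contra hcon
      exact hv' (hbz v hcon)
    exact ⟨⟨v, this⟩, by ext; rfl⟩
  have hb := Finsupp.mapDomain_comapDomain (Fin.castLE h) (Fin.castLE_injective h) b hsub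
  refine ⟨b.comapDomain (Fin.castLE h) (Fin.castLE_injective h).injOn, hb.symm, ?_⟩
  refine ⟨⟨u, hu⟩, ?_, ?_⟩
  · rw [Finsupp.comapDomain_apply]
    have e : Fin.castLE h ⟨u, hu⟩ = u := by ext; rfl
    rw [e]
    rw [← e, Finsupp.mapDomain_apply (Fin.castLE_injective h), e] at h1
    exact h1
  · intro u' hu'
    rw [Finsupp.comapDomain_apply]
    have := h2 (Fin.castLE h u') hu'
    rw [this, Finsupp.mapDomain_apply (Fin.castLE_injective h)]

theorem cpt_deg {N N' : ℕ} (h : N ≤ N') (m : Fin N →₀ ℕ) :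
    (m.mapDomain (Fin.castLE h)).degree = m.degree := by
  rw [Finsupp.degree_eq_sum, Finsupp.degree_eq_sum]
  symm
  refine Fintype.sum_of_injective (Fin.castLE h) (Fin.castLE_injective h) _ _ ?_ ?_
  · intro v hv
    exact Finsupp.mapDomain_notin_range _ _ hv
  · intro v
    rw [Finsupp.mapDomain_apply (Fin.castLE_injective h)]

theorem cpt_lf {F : Type} [Field F] (P : ℕ → ℕ → F) {N N' : ℕ} (h : N ≤ N') (i : ℕ) :
    killCompl (Fin.castLE_injective h) (lf P N' i) = lf P N i := by
  have := killCompl_linForm (k := F) (Fin.castLE_injective h) (fun s : Fin N' => P i s)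
  exact this

theorem cpt_lf_homog {F : Type} [Field F] (P : ℕ → ℕ → F) (j N i : ℕ) :
    (lf P N i ^ j).IsHomogeneous j := by
  have := (linForm_isHomogeneous (k := F) (fun s : Fin N => P i s)).pow j
  rw [one_mul] at this
  exact this

theorem cpt_kill {F : Type} [Field F] (P : ℕ → ℕ → F) {j N N' r : ℕ} (h : N ≤ N')
    {f : MvPolynomial (Fin N') F} (hf : f ∈ idl P j N' r) :
    killCompl (Fin.castLE_injective h) f ∈ idl P j N r := by
  unfold idl at hf
  refine Submodule.span_induction (p := fun f _ =>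
    killCompl (Fin.castLE_injective h) f ∈ idl P j N r) ?_ ?_ ?_ ?_ hf
  · rintro x ⟨i, hi, rfl⟩
    rw [map_pow, cpt_lf]
    exact Ideal.subset_span ⟨i, hi, rfl⟩
  · rw [map_zero]; exact Ideal.zero_mem _
  · intro x y _ _ hx hy
    rw [map_add]; exact Ideal.add_mem _ hx hy
  · intro a x _ hx
    rw [smul_eq_mul, map_mul]
    exact Ideal.mul_mem_left _ _ hx

theorem cpt_lift {F : Type} [Field F] (P : ℕ → ℕ → F) {j N N' r : ℕ} (h : N ≤ N')
    {f : MvPolynomial (Fin N) F} (hf : f ∈ idl P j N r) (c : ℕ) :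
    ∃ f' ∈ idl P j N' r, f'.IsHomogeneous c ∧
      killCompl (Fin.castLE_injective h) f' = homogeneousComponent c f := by
  unfold idl at hf
  refine Submodule.closure_induction (p := fun f _ => ∃ f' ∈ idl P j N' r, f'.IsHomogeneous c ∧
      killCompl (Fin.castLE_injective h) f' = homogeneousComponent c f) ?_ ?_ ?_ hf
  · exact ⟨0, Ideal.zero_mem _, isHomogeneous_zero _ _ _, by rw [map_zero, map_zero]⟩
  · rintro x y _ _ ⟨x', hx1, hx2, hx3⟩ ⟨y', hy1, hy2, hy3⟩
    exact ⟨x' + y', Ideal.add_mem _ hx1 hy1, hx2.add hy2, by rw [map_add, map_add, hx3, hy3]⟩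
  · rintro g x ⟨i, hi, rfl⟩
    rw [smul_eq_mul, homogeneousComponent_mul_right (cpt_lf_homog P j N i)]
    by_cases hjc : j ≤ c
    · rw [if_pos hjc]
      refine ⟨rename (Fin.castLE h) (homogeneousComponent (c - j) g) * lf P N' i ^ j, ?_, ?_, ?_⟩
      · exact Ideal.mul_mem_left _ _ (Ideal.subset_span ⟨i, hi, rfl⟩)
      · have h1 : (rename (Fin.castLE h) (homogeneousComponent (c - j) g)).IsHomogeneous (c - j) :=
          IsHomogeneous.rename_isHomogeneous (homogeneousComponent_isHomogeneous _ _)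
        have h2 := h1.mul (cpt_lf_homog P j N' i)
        rwa [Nat.sub_add_cancel hjc] at h2
      · rw [map_mul, map_pow, cpt_lf, killCompl_rename_app]
    · rw [if_neg hjc]
      exact ⟨0, Ideal.zero_mem _, isHomogeneous_zero _ _ _, by rw [map_zero]⟩

theorem hCPT0 : Pool.Agent.Helper65.HF.cCPT := by
  intro F _ P j N N' r l hNN hl
  have hmon := cpt_mon hNN l hl
  have hdeg : (mon N' l).degree = (mon N l).degree := by rw [← hmon, cpt_deg]
  constructor
  · rintro ⟨f, hf, hhom, hne, hzero⟩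
    obtain ⟨f', hf', hhom', hk⟩ := cpt_lift P (N' := N') hNN hf (mon N l).degree
    have hc : homogeneousComponent (mon N l).degree f = f := by
      rw [homogeneousComponent_of_mem ((mem_homogeneousSubmodule _ _).2 hhom), if_pos rfl]
    rw [hc] at hk
    refine ⟨f', hf', hdeg ▸ hhom', ?_, ?_⟩
    · rw [← hmon, ← coeff_killCompl (Fin.castLE_injective hNN), hk]
      exact hne
    · intro b hb
      rw [← hmon] at hb
      obtain ⟨b', rfl, hb'⟩ := cpt_RL' hNN (mon N l) b hb
      rw [← coeff_killCompl (Fin.castLE_injective hNN), hk]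
      exact hzero b' hb'
  · rintro ⟨f, hf, hhom, hne, hzero⟩
    refine ⟨killCompl (Fin.castLE_injective hNN) f, cpt_kill P hNN hf, ?_, ?_, ?_⟩
    · rw [← hdeg]
      exact killCompl_isHomogeneous _ hhom
    · rw [coeff_killCompl, hmon]
      exact hne
    · intro b hb
      rw [coeff_killCompl]
      apply hzero
      rw [← hmon]
      exact cpt_RL hNN _ _ hb

theorem hCPT : Pool.Agent.Helper65.HF.sCPT := fun _ => hCPT0

end Pool.Agent.Helper21.HF
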